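import Pool.Agent.MWK.Stmts

set_option autoImplicit false

namespace Pool.Agent.MWK.H33

open Pool.Agent.MWK

theorem cvt : CvtStmt := by
  intro cs
  induction cs with
  | nil =>
    intro p w A₀ B hw hp _ hC z hz hzB
    have h1 : w.count z = 1 := hC z hz
    have h2 : A₀.count z = 1 := hp z hz
    rw [hw, List.count_append] at h1
    have h3 : 0 < B.count z := List.count_pos_iff.2 hzB
    omega
  | cons c cs ih =>
    intro p w A₀ B hw hp hcs hC
    obtain ⟨h1, h2, h3⟩ := hC
    have hcA : c ∉ A₀ := hcs c (by simp)
    have hcB : c ∈ B := by
      rw [hw] at h2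
      rcases List.mem_append.1 h2 with h | h
      · exact absurd h hcA
      · exact h
    obtain ⟨B₂, hB⟩ := mem_split hcB
    have hcB1 : c ∉ pre B c := not_mem_pre B c
    have hpre : pre w c = A₀ ++ pre B c := by
      rw [hw, pre_append hcA]
    refine ⟨pre B c, B₂, hB, ?_, hcB1, ?_, ?_⟩
    · intro z hz hzB
      have h4 := h1 z hz
      rw [hpre, List.count_append, hp z hz] at h4
      have h5 : 0 < (pre B c).count z := List.count_pos_iff.2 hzB
      omega
    · intro z hz hzB
      have h4 : c ∈ pre w z := Chc.mem_pre h3 c (by simp) z hz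
      have h5 : z ∉ pre w c := pre_asymm h4
      rw [hpre] at h5
      exact h5 (List.mem_append_right _ hzB)
    · have hw2 : w = (A₀ ++ pre B c ++ [c]) ++ B₂ := by
        rw [hw]
        conv_lhs => rw [hB]
        simp
      refine ih [c] w (A₀ ++ pre B c ++ [c]) B₂ hw2 ?_ ?_ h3
      · intro z hz
        rw [List.mem_singleton] at hz
        subst hz
        rw [List.count_append, List.count_append, List.count_eq_zero_of_not_mem hcA,
          List.count_eq_zero_of_not_mem hcB1]
        simp
      · intro z hz hmem
        have h4 : c ∈ pre w z := Chc.mem_pre h3 c (by simp) z hz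
        have h5 : z ∉ pre w c := pre_asymm h4
        rw [hpre] at h5
        rcases List.mem_append.1 hmem with h | h
        · exact h5 h
        · rw [List.mem_singleton] at h
          subst h
          exact not_mem_pre w z h4

end Pool.Agent.MWK.H33
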